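import Pool.Agent.R460.GQ.Conv

set_option autoImplicit false

/-! The correlations of the primes with all the shifts in a residue class. -/

namespace Pool.Agent.R460.GQ

open Finset
open Pool.Agent.R460.GS
open Pool.Agent.R460.GH
open Pool.Agent.R460.GP (cvd gcd_neg_val)
open Pool.Agent.H373R2.T7 (lamz Vz pz lamI lamzI Vz_pos lamI_nonneg lamzI_nonneg lamI_le lamzI_le Vz_inv_small)
open Pool.Agent.Y883.T3 (lsh)
open Pool.Agent.Y883.GJ
open Pool.Agent.Y614.GJ.Core (ev_log)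

/-- the correlation up to `N₁` with shift `y` -/
noncomputable def czl (z N₁ y : ℕ) : ℝ :=
  ∑ n ∈ Icc 1 N₁, ArithmeticFunction.vonMangoldt n * (lamI ((n : ℤ) + (y : ℤ)) - lamzI z ((n : ℤ) + (y : ℤ)))

lemma czl_term (z X n y : ℕ) (D : ℝ) (hX : n + y ≤ X) (hn : 1 ≤ n) (hD : Real.log (X : ℝ) + (Vz z)⁻¹ ≤ D) :
    |ArithmeticFunction.vonMangoldt n * (lamI ((n : ℤ) + (y : ℤ)) - lamzI z ((n : ℤ) + (y : ℤ)))| ≤ D * D := by
  have hX1 : (1 : ℝ) ≤ X := by exact_mod_cast (by omega : 1 ≤ X)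
  have hV0 : 0 ≤ (Vz z)⁻¹ := (inv_pos.2 (Vz_pos z)).le
  have hD0 : 0 ≤ D := le_trans (add_nonneg (Real.log_nonneg hX1) hV0) hD
  rw [abs_mul]
  apply mul_le_mul _ _ (abs_nonneg _) hD0
  · rw [abs_of_nonneg ArithmeticFunction.vonMangoldt_nonneg]
    refine ArithmeticFunction.vonMangoldt_le_log.trans ?_
    have : Real.log (n : ℝ) ≤ Real.log X := Real.log_le_log (by exact_mod_cast hn) (by exact_mod_cast (by omega : n ≤ X))
    linarith
  · refine (abs_sub _ _).trans ?_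
    rw [abs_of_nonneg (lamI_nonneg _), abs_of_nonneg (lamzI_nonneg _ _)]
    refine le_trans (add_le_add (lamI_le _ _ hX1 ?_) (lamzI_le z _)) hD
    exact_mod_cast hX

lemma czl_split (z s j N₁ y X : ℕ) (D : ℝ) (hj : j = N₁ / s) (hs : 1 ≤ s) (hX : N₁ + y ≤ X) (hD : Real.log (X : ℝ) + (Vz z)⁻¹ ≤ D) :
    |czl z N₁ y| ≤ |czl z (j * s) y| + s * (D * D) := by
  have hjs : j * s ≤ N₁ := by rw [hj]; exact Nat.div_mul_le_self _ _
  have hjs2 : N₁ < j * s + s := by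
    rw [hj]
    have := Nat.lt_div_mul_add (a := N₁) (b := s) hs
    exact this
  have h1 : czl z N₁ y = czl z (j * s) y + ∑ n ∈ Ioc (j * s) N₁, ArithmeticFunction.vonMangoldt n * (lamI ((n : ℤ) + (y : ℤ)) - lamzI z ((n : ℤ) + (y : ℤ))) := by
    unfold czl
    have e1 : Icc 1 N₁ = Ioc 0 N₁ := rfl
    have e2 : Icc 1 (j * s) = Ioc 0 (j * s) := rfl
    rw [e1, e2, Finset.sum_Ioc_consecutive _ (Nat.zero_le _) hjs]
  rw [h1]
  refine (abs_add_le _ _).trans ?_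
  apply add_le_add le_rfl
  refine (abs_sum_le_sum_abs _ _).trans ?_
  have h2 : ∀ n ∈ Ioc (j * s) N₁, |ArithmeticFunction.vonMangoldt n * (lamI ((n : ℤ) + (y : ℤ)) - lamzI z ((n : ℤ) + (y : ℤ)))| ≤ D * D := by
    intro n hn
    rw [mem_Ioc] at hn
    exact czl_term z X n y D (by omega) (by omega) hD
  refine (sum_le_sum h2).trans ?_
  rw [sum_const, Nat.card_Ioc, nsmul_eq_mul]
  apply mul_le_mul_of_nonneg_right _ (mul_self_nonneg D)
  exact_mod_cast (by omega : N₁ - j * s ≤ s)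

open Classical in
/-- the shifts in a residue class with a large correlation -/
noncomputable def badC (C X q b z : ℕ) : Finset ℕ :=
  (Icc 1 X).filter (fun d => d % q = b % q ∧ ∃ N₁ : ℕ, N₁ ≤ X ∧ (X : ℝ) / Real.log X ^ C < |czl z N₁ d|)

theorem cz_main (hErr : ErrQStm) (ρ : ℝ) (hρ : 0 < ρ) (A C T E0 : ℕ) :
    ∃ E X₀ : ℕ, ∀ X : ℕ, X₀ ≤ X → ∃ z : ℕ, Real.log X ^ E0 ≤ z ∧ (z : ℝ) ≤ Real.log X ^ E ∧
      ∀ q : ℕ, 1 ≤ q → (q : ℝ) ≤ (X : ℝ) ^ (2 / 3 - ρ) → ∀ b : ℕ,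
      (Nat.gcd b q : ℝ) ≤ Real.log X ^ T → ((badC C X q b z).card : ℝ) ≤ (X : ℝ) / (q * Real.log X ^ A) := by
  classical
  obtain ⟨A', hA'⟩ : ∃ A', A' = A + 3 * C + 6 := ⟨_, rfl⟩
  obtain ⟨B', hB'⟩ := hErr A' T 0 (C + 2) ρ hρ
  obtain ⟨E1, hE1⟩ : ∃ E1, E1 = max (B' + 1) E0 := ⟨_, rfl⟩
  obtain ⟨N₁, h1⟩ := hB' (E1 + 1)
  obtain ⟨X₂, h2⟩ := Vz_inv_small (E1 + 1)
  obtain ⟨X₃, h3⟩ := Filter.eventually_atTop.1 (ev_log (C + 4) (s := 1) (by norm_num) (2 ^ B' + 400))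
  refine ⟨E1 + 1, N₁ + X₂ + X₃ + 3, fun X hX => ?_⟩
  have hX1 : 1 ≤ X := by omega
  have hX0 : (0 : ℝ) < X := by exact_mod_cast hX1
  have hX1r : (1 : ℝ) ≤ X := by exact_mod_cast hX1
  obtain ⟨hLb, hLp⟩ := h3 X (by omega)
  have c2 := h2 X (by omega)
  obtain ⟨N, hN⟩ : ∃ N, N = 2 * X := ⟨_, rfl⟩
  have hXN : X ≤ N := by omega
  have hNr : (N : ℝ) = 2 * X := by rw [hN]; push_cast; ring
  have c1 := h1 N (by omega)
  have hL2 : Real.log X ≤ Real.log N := Real.log_le_log hX0 (by exact_mod_cast hXN)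
  have hL3 : Real.log N ≤ 2 * Real.log X := by
    rw [hNr, Real.log_mul (by norm_num) hX0.ne']
    have := Real.log_two_lt_d9
    have h5 : (0 : ℝ) < 2 ^ B' := by positivity
    linarith
  rw [Real.rpow_one] at hLp
  obtain ⟨L, hLd⟩ : ∃ L, L = Real.log (X : ℝ) := ⟨_, rfl⟩
  obtain ⟨L', hLd'⟩ : ∃ L', L' = Real.log (N : ℝ) := ⟨_, rfl⟩
  rw [← hLd] at hLb hLp c2 hL2 hL3 ⊢
  rw [← hLd'] at c1 hL2 hL3
  have h2B : (0 : ℝ) < 2 ^ B' := by positivity
  have hL400 : 400 ≤ L := by linarith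
  have hL0 : 0 < L := by linarith
  have hL1 : 1 ≤ L := by linarith
  have hL0' : 0 < L' := by linarith
  -- the parameter `z`
  obtain ⟨z, hz⟩ : ∃ z, z = ⌈L ^ E1⌉₊ := ⟨_, rfl⟩
  have hzlo : L ^ E1 ≤ z := by rw [hz]; exact Nat.le_ceil _
  have hL1B : 1 ≤ L ^ E1 := one_le_pow₀ hL1
  have hzhi : (z : ℝ) ≤ L ^ (E1 + 1) := by
    have := Nat.ceil_lt_add_one (show 0 ≤ L ^ E1 by positivity)
    rw [← hz] at this
    calc (z : ℝ) ≤ L ^ E1 + 1 := this.le
      _ ≤ L ^ E1 + L ^ E1 := by linarith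
      _ = 2 * L ^ E1 := by ring
      _ ≤ L * L ^ E1 := mul_le_mul_of_nonneg_right (by linarith) (by positivity)
      _ = L ^ (E1 + 1) := by ring
  have hzB : L' ^ B' ≤ z := by
    calc L' ^ B' ≤ (2 * L) ^ B' := pow_le_pow_left₀ hL0'.le hL3 _
      _ = 2 ^ B' * L ^ B' := mul_pow _ _ _
      _ ≤ L * L ^ B' := mul_le_mul_of_nonneg_right (by linarith) (by positivity)
      _ = L ^ (B' + 1) := by ring
      _ ≤ L ^ E1 := pow_le_pow_right₀ hL1 (by rw [hE1]; exact le_max_left _ _)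
      _ ≤ z := hzlo
  have hz1 : 1 ≤ z := by
    have : (1 : ℝ) ≤ z := hL1B.trans hzlo
    exact_mod_cast this
  have hV := c2 z hz1 hzhi
  refine ⟨z, (pow_le_pow_right₀ hL1 (by rw [hE1]; exact le_max_right _ _)).trans hzlo, hzhi, ?_⟩
  intro q hq1 hqX b hb
  have hq0 : (0 : ℝ) < q := by exact_mod_cast hq1
  have : NeZero q := ⟨by omega⟩
  obtain ⟨r, hPar, hsum, hms⟩ := c1 z hzB (hzhi.trans (pow_le_pow_left₀ hL0.le hL2 _))
  -- the grid
  obtain ⟨Tg, hTg⟩ : ∃ Tg, Tg = ⌈L ^ (C + 3)⌉₊ := ⟨_, rfl⟩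
  have hT1 : L ^ (C + 3) ≤ Tg := by rw [hTg]; exact Nat.le_ceil _
  have hLV : 1 ≤ L ^ (C + 3) := one_le_pow₀ hL1
  have hTg0 : (0 : ℝ) < Tg := by linarith
  have hTgn : 0 < Tg := by exact_mod_cast hTg0
  have hT2 : (Tg : ℝ) + 1 ≤ L ^ (C + 4) := by
    have h4 : (Tg : ℝ) < L ^ (C + 3) + 1 := by
      rw [hTg]
      exact Nat.ceil_lt_add_one (by positivity)
    calc (Tg : ℝ) + 1 ≤ 3 * L ^ (C + 3) := by linarith
      _ ≤ L * L ^ (C + 3) := mul_le_mul_of_nonneg_right (by linarith) (by positivity)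
      _ = L ^ (C + 4) := by ring
  obtain ⟨s, hs⟩ : ∃ s, s = X / Tg + 1 := ⟨_, rfl⟩
  have hsT : X < Tg * s := by
    rw [hs]
    have := Nat.lt_div_mul_add (a := X) (b := Tg) hTgn
    calc X < X / Tg * Tg + Tg := this
      _ = Tg * (X / Tg + 1) := by ring
  have hsr : (s : ℝ) ≤ 2 * (X / L ^ (C + 3)) := by
    rw [hs]
    push_cast
    have h5 : ((X / Tg : ℕ) : ℝ) ≤ X / Tg := Nat.cast_div_le
    have h6 : (X : ℝ) / Tg ≤ X / L ^ (C + 3) := div_le_div_of_nonneg_left hX0.le (by positivity) hT1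
    have h7 : 1 ≤ X / L ^ (C + 3) := by
      rw [le_div_iff₀ (by positivity), one_mul]
      exact (pow_le_pow_right₀ hL1 (by omega)).trans hLp
    linarith
  obtain ⟨t, ht⟩ : ∃ t : ℝ, t = X / (4 * L ^ C) := ⟨_, rfl⟩
  have ht0 : 0 < t := by rw [ht]; positivity
  -- the error from the truncated model
  have htr : L' * ∑ c ∈ Icc 1 N, |lamz z c - lsh z r c| ≤ t := by
    calc L' * ∑ c ∈ Icc 1 N, |lamz z c - lsh z r c| ≤ L' * (N / L' ^ (C + 2)) :=
          mul_le_mul_of_nonneg_left hsum hL0'.le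
      _ = N / L' ^ (C + 1) := by rw [pow_succ L' (C + 1)]; field_simp
      _ ≤ N / L ^ (C + 1) := by
          apply div_le_div_of_nonneg_left (by positivity) (by positivity)
          exact pow_le_pow_left₀ hL0.le hL2 _
      _ ≤ t := by
          rw [ht, hNr, div_le_div_iff₀ (by positivity) (by positivity)]
          have e : L ^ (C + 1) = L ^ C * L := by ring
          rw [e]
          have h6 : 0 ≤ (X : ℝ) * L ^ C := by positivity
          calc 2 * (X : ℝ) * (4 * L ^ C) = (X * L ^ C) * 8 := by ring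
            _ ≤ (X * L ^ C) * L := mul_le_mul_of_nonneg_left (by linarith) h6
            _ = _ := by ring
  -- the gap
  obtain ⟨D, hD⟩ : ∃ D, D = 4 * L := ⟨_, rfl⟩
  have hDb : Real.log (N : ℝ) + (Vz z)⁻¹ ≤ D := by
    rw [← hLd', hD]
    linarith
  have hgap : (s : ℝ) * (D * D) ≤ t := by
    calc (s : ℝ) * (D * D) ≤ 2 * (X / L ^ (C + 3)) * (D * D) := mul_le_mul_of_nonneg_right hsr (mul_self_nonneg D)
      _ = 32 * (X / L ^ (C + 1)) := by
          rw [hD, show C + 3 = (C + 1) + 2 by ring, pow_add L (C + 1) 2]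
          field_simp
          try ring
      _ ≤ t := by
          rw [ht, mul_div_assoc', div_le_div_iff₀ (by positivity) (by positivity)]
          have e : L ^ (C + 1) = L ^ C * L := by ring
          rw [e]
          have h6 : 0 ≤ (X : ℝ) * L ^ C := by positivity
          calc 32 * (X : ℝ) * (4 * L ^ C) = (X * L ^ C) * 128 := by ring
            _ ≤ (X * L ^ C) * L := mul_le_mul_of_nonneg_left (by linarith) h6
            _ = _ := by ring
  -- every bad shift has a large vector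
  have hmem : ∀ d ∈ badC C X q b z, 1 ≤ d ∧ d ≤ X ∧ d % q = b % q ∧
      ∃ N₁ : ℕ, N₁ ≤ X ∧ (X : ℝ) / L ^ C < |czl z N₁ d| := by
    intro d hd
    unfold badC at hd
    rw [mem_filter, mem_Icc, ← hLd] at hd
    exact ⟨hd.1.1, hd.1.2, hd.2.1, hd.2.2⟩
  have hbig : ∀ d ∈ badC C X q b z, ∃ i ∈ range (Tg + 1),
      t ≤ ‖cvd (res 1 0 LA) (FF z r) (min (i * s) X) N (-(d : ℤ))‖ := by
    intro d hd
    obtain ⟨m1, m2, m3, N₁, m4, m5⟩ := hmem d hd
    obtain ⟨j, hj⟩ : ∃ j, j = N₁ / s := ⟨_, rfl⟩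
    have hs1 : 1 ≤ s := by rw [hs]; exact Nat.le_add_left 1 _
    have hjs : j * s ≤ N₁ := by rw [hj]; exact Nat.div_mul_le_self _ _
    have hjT : j < Tg := by
      by_contra hcon
      push Not at hcon
      have : Tg * s ≤ j * s := Nat.mul_le_mul_right _ hcon
      omega
    have hmin : min (j * s) X = j * s := min_eq_left (hjs.trans m4)
    refine ⟨j, mem_range.2 (by omega), ?_⟩
    rw [hmin]
    have k0 := czl_split z s j N₁ d N D hj hs1 (by omega) hDb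
    have k1 := near (N := N) (h := d) (y := j * s) z r 1 0 (by omega)
    have k2 : ∑ n ∈ Icc 1 (j * s), (if n ≡ 0 [MOD 1] then ArithmeticFunction.vonMangoldt n else 0) *
        (lamI ((n : ℤ) + (d : ℤ)) - lamzI z ((n : ℤ) + (d : ℤ))) = czl z (j * s) d := by
      unfold czl
      refine sum_congr rfl fun n _ => ?_
      rw [if_pos (Nat.modEq_one)]
    rw [k2, ← hLd'] at k1
    have k3 : (X : ℝ) / L ^ C = 4 * t := by rw [ht]; field_simp
    rw [k3] at m5
    linarith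
  have hg : (Nat.gcd (-((b : ℕ) : ZMod q)).val q : ℝ) ≤ L' ^ T := by
    rw [gcd_neg_val, ZMod.val_natCast, ← Nat.gcd_rec, Nat.gcd_comm q b]
    exact hb.trans (pow_le_pow_left₀ hL0.le hL2 _)
  have hqN : (q : ℝ) ≤ (N : ℝ) ^ (2 / 3 - ρ) := by
    rcases le_total (2 / 3 - ρ) 0 with hneg | hpos
    · -- then `q ≤ X ^ (negative)` forces `q ≤ 1`, `q = 1`
      have h5 : (X : ℝ) ^ (2 / 3 - ρ) ≤ 1 := Real.rpow_le_one_of_one_le_of_nonpos hX1r hneg
      by_contra hcon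
      push Not at hcon
      rcases hneg.lt_or_eq with hlt | heq
      · have h6 : (X : ℝ) ^ (2 / 3 - ρ) < 1 := Real.rpow_lt_one_of_one_lt_of_neg
          (by
            have : (3 : ℕ) ≤ X := by omega
            have : (3 : ℝ) ≤ X := by exact_mod_cast this
            linarith) hlt
        have h7 : (1 : ℝ) ≤ q := by exact_mod_cast hq1
        linarith
      · rw [heq, Real.rpow_zero] at hcon hqX
        linarith
    · refine hqX.trans ?_
      exact Real.rpow_le_rpow hX0.le (by exact_mod_cast hXN) hpos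
  have hms' := hms q 1 (one_dvd q) hqN (by
    rw [pow_zero]
    norm_num) 0 (-((b : ℕ) : ZMod q)) (isUnit_of_subsingleton _) hg
  have hone := one_class (N := N) (X := X) (Q := q) (q₀ := 1) (a₀ := 0) (Tg := Tg) (s := s) (z := z)
    (r := r) hXN ((b : ℕ) : ZMod q) (badC C X q b z)
    (R := (N : ℝ) ^ 3 / (q * L' ^ A')) (t := t)
    (by
      intro d hd
      obtain ⟨m1, m2, m3, -⟩ := hmem d hd
      refine ⟨m2, ?_⟩
      rw [ZMod.natCast_eq_natCast_iff']
      exact m3)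
    (fun y hy => hms' y N hy le_rfl)
    hbig ht0
  refine hone.trans ?_
  have e1 : (N : ℝ) ^ 3 / (q * L' ^ A') ≤ 8 * X ^ 3 / (q * L ^ A') := by
    rw [hNr]
    have : (2 * (X : ℝ)) ^ 3 = 8 * X ^ 3 := by ring
    rw [this]
    apply div_le_div_of_nonneg_left (by positivity) (by positivity)
    apply mul_le_mul_of_nonneg_left _ (by positivity)
    exact pow_le_pow_left₀ hL0.le hL2 _
  calc ((Tg : ℝ) + 1) * ((N : ℝ) ^ 3 / (q * L' ^ A')) / t ^ 2
      ≤ L ^ (C + 4) * (8 * X ^ 3 / (q * L ^ A')) / t ^ 2 := by gcongr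
    _ = X / (q * L ^ A) * (128 / L ^ 2) := by
        have e3 : L ^ (C + 4) = L ^ C * L ^ 4 := by ring
        have e4 : L ^ A' = L ^ A * (L ^ C) ^ 3 * L ^ 6 := by
          rw [hA', ← pow_mul, ← pow_add, ← pow_add]
          congr 1
          ring
        have hP0 : L ^ C ≠ 0 := by positivity
        have hA0 : L ^ A ≠ 0 := by positivity
        rw [ht, e3, e4]
        clear hms c1 c2 h1 h2 hB' hbig hone hms' hgap htr
        generalize L ^ C = P at hP0 ⊢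
        generalize L ^ A = P' at hA0 ⊢
        field_simp
        try ring
    _ ≤ X / (q * L ^ A) * 1 := by
        apply mul_le_mul_of_nonneg_left _ (by positivity)
        rw [div_le_one (by positivity)]
        nlinarith
    _ = _ := mul_one _

end Pool.Agent.R460.GQ
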