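import Pool.Agent.R460.GQ.Core

set_option autoImplicit false

/-! Functions restricted to a residue class: the shifted character sums. -/

namespace Pool.Agent.R460.GQ

open Finset
open Pool.Agent.Y883.GJ
open Pool.Agent.R460.GS
open Pool.Agent.H807R2.Dav (ee)

/-- the restriction of a function to a residue class -/
noncomputable def res (q₀ a₀ : ℕ) (F : ℕ → ℂ) (n : ℕ) : ℂ := if n ≡ a₀ [MOD q₀] then F n else 0

lemma norm_res_le (q₀ a₀ : ℕ) (F : ℕ → ℂ) (n : ℕ) : ‖res q₀ a₀ F n‖ ≤ ‖F n‖ := by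
  unfold res
  split_ifs
  · exact le_rfl
  · rw [norm_zero]; exact norm_nonneg _

lemma bd_res {N : ℕ} (q₀ a₀ : ℕ) {F : ℕ → ℂ} (hF : BdAt N F) : BdAt N (res q₀ a₀ F) :=
  fun n hn => (norm_res_le q₀ a₀ F n).trans (hF n hn)

lemma cl_res {q q₀ a₀ : ℕ} (hq : q₀ ∣ q) (y : ℕ) (F : ℕ → ℂ) (η : ℝ) (l : ZMod q) :
    cl q y (res q₀ a₀ F) η l =
      if ZMod.castHom hq (ZMod q₀) l = (a₀ : ZMod q₀) then cl q y F η l else 0 := by
  unfold cl res
  have h : ∀ n ∈ (Icc 1 y).filter (fun n : ℕ => (n : ZMod q) = l),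
      (n ≡ a₀ [MOD q₀] ↔ ZMod.castHom hq (ZMod q₀) l = (a₀ : ZMod q₀)) := by
    intro n hn
    rw [mem_filter] at hn
    rw [← hn.2, map_natCast, ZMod.natCast_eq_natCast_iff]
  split_ifs with hc
  · refine sum_congr rfl fun n hn => ?_
    rw [if_pos ((h n hn).2 hc)]
  · refine sum_eq_zero fun n hn => ?_
    rw [if_neg (fun hh => hc ((h n hn).1 hh)), zero_mul]

lemma shift_exp {q q₀ : ℕ} [NeZero q] [NeZero q₀] (hq : q₀ ∣ q) (χ : DirichletCharacter ℂ q)
    (u : ZMod q₀) (hu : IsUnit u) (x : ZMod q) :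
    (if ZMod.castHom hq (ZMod q₀) x = u then χ x else 0) = (q₀.totient : ℂ)⁻¹ *
      ∑ ψ : DirichletCharacter ℂ q₀, ψ u⁻¹ * (χ * DirichletCharacter.changeLevel hq ψ) x := by
  have hφ : (q₀.totient : ℂ) ≠ 0 := by
    have := Nat.totient_pos.2 (NeZero.pos q₀)
    exact_mod_cast this.ne'
  by_cases hx : IsUnit x
  · obtain ⟨v, rfl⟩ := hx
    have h1 : ∀ ψ : DirichletCharacter ℂ q₀,
        ψ u⁻¹ * (χ * DirichletCharacter.changeLevel hq ψ) (v : ZMod q) =
          χ v * (ψ u⁻¹ * ψ (ZMod.castHom hq (ZMod q₀) v)) := by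
      intro ψ
      rw [MulChar.mul_apply, DirichletCharacter.changeLevel_eq_cast_of_dvd, ZMod.castHom_apply]
      ring
    rw [sum_congr rfl fun ψ _ => h1 ψ, ← mul_sum,
      DirichletCharacter.sum_char_inv_mul_char_eq ℂ hu]
    by_cases he : u = ZMod.castHom hq (ZMod q₀) (v : ZMod q)
    · rw [if_pos he.symm, if_pos he]
      field_simp
    · rw [if_neg (fun h => he h.symm), if_neg he, mul_zero, mul_zero]
  · rw [MulChar.map_nonunit χ hx, ite_self, sum_eq_zero, mul_zero]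
    intro ψ _
    rw [MulChar.map_nonunit _ hx, mul_zero]

theorem shC_res {N B C T K₀ K₁ : ℕ} {ρ : ℝ} {F : ℕ → ℂ} (hSh : ShAt N ρ B C T K₀ F)
    {q₀ a₀ q : ℕ} [NeZero q] [NeZero q₀] (hq : q₀ ∣ q) (hq0 : (q₀ : ℝ) ≤ Real.log N ^ K₁)
    (hL : 0 < Real.log N) (a : ZMod q)
    (hu : IsUnit (ZMod.castHom hq (ZMod q₀) a - (a₀ : ZMod q₀))) :
    ShC N ρ B C T (K₀ + K₁) (res q₀ a₀ F) q a := by
  intro j hj χ hχ a' haa' hg η hη y hy
  have hm : q₀ ∣ (j + 1) * q := hq.mul_left _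
  have hcast : ZMod.castHom hm (ZMod q₀) a' = ZMod.castHom hq (ZMod q₀) a := by
    rw [← haa', map_natCast]
    conv_lhs => rw [← ZMod.natCast_zmod_val a']
    rw [map_natCast]
  have hφ0 : (0 : ℝ) < (q₀.totient : ℝ) := by
    have := Nat.totient_pos.2 (NeZero.pos q₀)
    exact_mod_cast this
  -- the expansion
  have h1 : ∀ l : ZMod ((j + 1) * q), cl ((j + 1) * q) y (res q₀ a₀ F) η l * χ (a' - l) =
      (q₀.totient : ℂ)⁻¹ * ∑ ψ : DirichletCharacter ℂ q₀,
        ψ (ZMod.castHom hq (ZMod q₀) a - (a₀ : ZMod q₀))⁻¹ * (cl ((j + 1) * q) y F η l *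
          (χ * DirichletCharacter.changeLevel hm ψ) (a' - l)) := by
    intro l
    have h2 := shift_exp hm χ _ hu (a' - l)
    rw [cl_res hm]
    have h3 : (ZMod.castHom hm (ZMod q₀) (a' - l) = ZMod.castHom hq (ZMod q₀) a - (a₀ : ZMod q₀)) ↔
        ZMod.castHom hm (ZMod q₀) l = (a₀ : ZMod q₀) := by
      rw [map_sub, hcast]
      constructor
      · intro h
        exact sub_right_injective h
      · intro h
        rw [h]
    calc (if ZMod.castHom hm (ZMod q₀) l = (a₀ : ZMod q₀) then cl ((j + 1) * q) y F η l else 0) *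
          χ (a' - l)
        = cl ((j + 1) * q) y F η l * (if ZMod.castHom hm (ZMod q₀) (a' - l) =
          ZMod.castHom hq (ZMod q₀) a - (a₀ : ZMod q₀) then χ (a' - l) else 0) := by
          by_cases h : ZMod.castHom hm (ZMod q₀) l = (a₀ : ZMod q₀)
          · rw [if_pos h, if_pos (h3.2 h)]
          · rw [if_neg h, if_neg (fun hh => h (h3.1 hh)), zero_mul, mul_zero]
      _ = _ := by
          rw [h2, mul_left_comm, mul_sum]
          congr 1
          refine sum_congr rfl fun ψ _ => ?_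
          ring
  rw [sum_congr rfl fun l _ => h1 l, ← mul_sum, sum_comm, norm_mul, norm_inv, Complex.norm_natCast]
  have h4 : ∀ ψ : DirichletCharacter ℂ q₀, ‖∑ l : ZMod ((j + 1) * q),
      ψ (ZMod.castHom hq (ZMod q₀) a - (a₀ : ZMod q₀))⁻¹ * (cl ((j + 1) * q) y F η l *
          (χ * DirichletCharacter.changeLevel hm ψ) (a' - l))‖ ≤ N / Real.log N ^ B := by
    intro ψ
    rw [← mul_sum, norm_mul]
    have h5 : ‖ψ (ZMod.castHom hq (ZMod q₀) a - (a₀ : ZMod q₀))⁻¹‖ ≤ 1 :=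
      DirichletCharacter.norm_le_one _ _
    have h6 : Real.log N ^ K₀ < ((χ * DirichletCharacter.changeLevel hm ψ).conductor : ℝ) := by
      have e1 : χ = (χ * DirichletCharacter.changeLevel hm ψ) *
          (DirichletCharacter.changeLevel hm ψ)⁻¹ := by
        rw [mul_assoc, mul_inv_cancel, mul_one]
      have e2 := DirichletCharacter.conductor_mul_dvd_lcm_conductor
        (χ * DirichletCharacter.changeLevel hm ψ) (DirichletCharacter.changeLevel hm ψ)⁻¹
      rw [← e1, DirichletCharacter.conductor_inv, DirichletCharacter.conductor_changeLevel] at e2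
      have e3 : 0 < ψ.conductor := Nat.pos_of_ne_zero ψ.conductor_ne_zero
      have e4 : ψ.conductor ≤ q₀ := Nat.le_of_dvd (NeZero.pos q₀) ψ.conductor_dvd_level
      have e5 : 0 < (χ * DirichletCharacter.changeLevel hm ψ).conductor :=
        Nat.pos_of_ne_zero (DirichletCharacter.conductor_ne_zero _)
      have e6 : χ.conductor ≤ (χ * DirichletCharacter.changeLevel hm ψ).conductor * q₀ := by
        refine (Nat.le_of_dvd (Nat.lcm_pos e5 e3) e2).trans ?_
        refine (Nat.le_of_dvd (Nat.mul_pos e5 e3) (Nat.lcm_dvd_mul _ _)).trans ?_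
        exact Nat.mul_le_mul_left _ e4
      have e7 : (χ.conductor : ℝ) ≤
          ((χ * DirichletCharacter.changeLevel hm ψ).conductor : ℝ) * Real.log N ^ K₁ := by
        calc (χ.conductor : ℝ) ≤ ((χ * DirichletCharacter.changeLevel hm ψ).conductor : ℝ) * q₀ := by
              exact_mod_cast e6
          _ ≤ _ := by gcongr
      have e8 := hχ.trans_le e7
      rw [pow_add] at e8
      exact lt_of_mul_lt_mul_right e8 (by positivity)
    have h7 := hSh ((j + 1) * q) hj _ h6 a' hg η hη y hy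
    calc _ ≤ 1 * ‖∑ l : ZMod ((j + 1) * q), cl ((j + 1) * q) y F η l *
          (χ * DirichletCharacter.changeLevel hm ψ) (a' - l)‖ :=
          mul_le_mul_of_nonneg_right h5 (norm_nonneg _)
      _ ≤ _ := by rw [one_mul]; exact h7
  have h8 : ‖∑ ψ : DirichletCharacter ℂ q₀, ∑ l : ZMod ((j + 1) * q),
      ψ (ZMod.castHom hq (ZMod q₀) a - (a₀ : ZMod q₀))⁻¹ * (cl ((j + 1) * q) y F η l *
          (χ * DirichletCharacter.changeLevel hm ψ) (a' - l))‖ ≤
      (q₀.totient : ℝ) * (N / Real.log N ^ B) := by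
    refine (norm_sum_le _ _).trans ?_
    refine (sum_le_sum fun ψ _ => h4 ψ).trans ?_
    rw [sum_const, nsmul_eq_mul, card_univ, ← Nat.card_eq_fintype_card,
      DirichletCharacter.card_eq_totient_of_hasEnoughRootsOfUnity ℂ q₀]
  calc (q₀.totient : ℝ)⁻¹ * _ ≤ (q₀.totient : ℝ)⁻¹ * ((q₀.totient : ℝ) * (N / Real.log N ^ B)) :=
        mul_le_mul_of_nonneg_left h8 (by positivity)
    _ = N / Real.log N ^ B := by
        rw [← mul_assoc, inv_mul_cancel₀ hφ0.ne', one_mul]

end Pool.Agent.R460.GQ
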