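import Pool.Agent.R460.GH.Asm
import Pool.Agent.R460.GQ.Tw
import Pool.Agent.Y697.GJ.LiftC

set_option autoImplicit false

/-! The error terms in project GQ: prime pairs in progressions, differences in a residue class. -/

namespace Pool.Agent.R460.GQ

open Finset
open Pool.Agent.R460.GS
open Pool.Agent.R460.GH
open Pool.Agent.R460.GP (cvd)
open Pool.Agent.H373R2.T7 (lamz Vz pz lamz_ap lam_ap)
open Pool.Agent.Y883.T3 (lsh)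
open Pool.Agent.Y883.GJ
open Pool.Agent.Y614.GJ.Core (ev_log)

/-- ERRQ: the error terms -/
def ErrQStm : Prop := ∀ (A T K₁ U₀ : ℕ) (ρ : ℝ), 0 < ρ → ∃ B : ℕ, ∀ E : ℕ, ∃ N₀ : ℕ, ∀ N : ℕ, N₀ ≤ N → ∀ z : ℕ,
  Real.log N ^ B ≤ z → (z : ℝ) ≤ Real.log N ^ E → ∃ r : ℕ, Par U₀ N z r ∧
    ∑ n ∈ Icc 1 N, |lamz z n - lsh z r n| ≤ N / Real.log N ^ U₀ ∧
    ∀ (q q₀ : ℕ) [NeZero q] [NeZero q₀] (hq : q₀ ∣ q), (q : ℝ) ≤ (N : ℝ) ^ (2 / 3 - ρ) →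
    (q₀ : ℝ) ≤ Real.log N ^ K₁ → ∀ (a₀ : ℕ) (a : ZMod q),
    IsUnit (ZMod.castHom hq (ZMod q₀) a - (a₀ : ZMod q₀)) →
    (Nat.gcd a.val q : ℝ) ≤ Real.log N ^ T → ∀ y₁ y₂ : ℕ, y₁ ≤ N → y₂ ≤ N →
      ∑ n ∈ (Icc (-(N : ℤ)) N).filter (fun n : ℤ => (n : ZMod q) = a),
        ‖cvd (res q₀ a₀ LA) (FF z r) y₁ y₂ n‖ ^ 2 ≤ (N : ℝ) ^ 3 / (q * Real.log N ^ A)

theorem err_Q (hCore : Core4Stm) (hShl : ShlStm) (hL2 : L2Stm) (hB3 : BilMaj3Stm)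
    (hBm : BilMinStm) (hTM : TiMaj2Stm) (hTm : TiMinStm) (hLsh : LshStm) (hModel : ModelStm) : ErrQStm := by
  intro A T K₁ U₀ ρ hρ
  have hρ2 : 0 < ρ / 2 := by positivity
  obtain ⟨A₁, hC1⟩ := hCore A T (1 / 30 + ρ) (1 / 30 + ρ / 2) (by positivity) (by linarith)
  obtain ⟨Cg, Ng, hg⟩ := nLA hL2 hBm (A₁ + 2) hρ2
  obtain ⟨Ch, Nh, hh⟩ := nHU hTm hLsh (A₁ + 2) (ρ := 1 / 30 + ρ / 2) (by positivity)
  obtain ⟨C, hC⟩ : ∃ C, C = max Cg Ch := ⟨_, rfl⟩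
  obtain ⟨A₂, hC2⟩ := hC1 C
  obtain ⟨C₃, Nm1, hm1⟩ := mLA hL2 hB3 (A₂ + 2) C hρ2
  obtain ⟨Nm2, hm2⟩ := mHU hTM hLsh (A₂ + 2) C (ρ := 1 / 30 + ρ / 2) (by positivity)
  obtain ⟨B₂, hC3⟩ := hC2 C₃
  obtain ⟨K₂, Ns2, hs2⟩ := hShl B₂ C (T + C) (1 / 30 + ρ / 2) (by positivity)
  obtain ⟨K, hK⟩ : ∃ K, K = K₂ + K₁ := ⟨_, rfl⟩
  obtain ⟨U, Nc, hC4⟩ := hC3 K
  obtain ⟨U₁, hU₁⟩ : ∃ U₁, U₁ = max U₀ (U + 2) := ⟨_, rfl⟩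
  obtain ⟨Bm, hBm⟩ := hModel U₁
  refine ⟨max Bm K, fun E => ?_⟩
  obtain ⟨Nmo, hmo⟩ := hBm E
  obtain ⟨Nl, hl⟩ := lamz_ap E (U + 2)
  obtain ⟨Na, ha⟩ := lam_ap K (U + 2)
  obtain ⟨Ne, hNe⟩ := Filter.eventually_atTop.1 (ev_log 1 (s := 1) (by norm_num) 4)
  refine ⟨Ng + Nh + Nm1 + Nm2 + Ns2 + Nc + Nmo + Nl + Na + Ne + 1, fun N hN z hz1 hz2 => ?_⟩
  have hN1 : 1 ≤ N := by omega
  obtain ⟨hLe, -⟩ := hNe N (by omega)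
  have hL1 : 1 ≤ Real.log N := by linarith
  have hL2 : 2 ≤ Real.log N := by linarith
  have hzB : Real.log N ^ Bm ≤ z := (pow_le_pow_right₀ hL1 (le_max_left _ _)).trans hz1
  have hzK : Real.log N ^ K ≤ z := (pow_le_pow_right₀ hL1 (le_max_right _ _)).trans hz1
  have hz1' : 1 ≤ z := by
    have : (1 : ℝ) ≤ z := (one_le_pow₀ hL1).trans hz1
    exact_mod_cast this
  obtain ⟨r, hPar, hsum⟩ := hmo N (by omega) z hzB hz2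
  have hdiv : ∀ V : ℕ, V ≤ U₁ → (N : ℝ) / Real.log N ^ U₁ ≤ N / Real.log N ^ V := fun V hV =>
    div_le_div_of_nonneg_left (Nat.cast_nonneg _) (by positivity) (pow_le_pow_right₀ hL1 hV)
  have hU0 : U₀ ≤ U₁ := by rw [hU₁]; exact le_max_left _ _
  have hU2 : U + 2 ≤ U₁ := by rw [hU₁]; exact le_max_right _ _
  have hP0 := par_mono hL1 hU0 hPar
  have hP2 := par_mono hL1 hU2 hPar
  refine ⟨r, hP0, hsum.trans (hdiv _ hU0), ?_⟩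
  intro q q₀ _ _ hqd hq hq0 a₀ a hu hgcd y₁ y₂ hy₁ hy₂
  -- the conditions of the core estimate
  have hMin : MinAt N (1 / 30 + ρ / 2) A₁ C (FF z r) := by
    rw [hC]
    exact min_FF hL2 (hg N (by omega)) (hh N (by omega) z r hPar.hD hPar.hV)
  have hMaj : MajAt N (1 / 30 + ρ / 2) A₂ C C₃ (FF z r) :=
    maj_FF hL2 (hm1 N (by omega)) (fun q _ hq => hm2 N (by omega) q hq z r hPar.hD hPar.hV)
  have hAp : ApAt N K U (FF z r) := by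
    refine ap_FF hL2 ?_ (hsum.trans (hdiv _ hU2)) (ha N (by omega))
    intro q hq hqK c y hy
    refine hl N (by omega) z hz1' hz2 q hq ?_ c y hy
    exact_mod_cast hqK.trans hzK
  have hNc : NcAt N U (FF z r) := nc_FF (par_mono hL1 (by omega) hP2)
  have hBdF : BdAt N (res q₀ a₀ LA) := bd_res q₀ a₀ (bd_LA hL1)
  have hSh : ShC N (1 / 30 + ρ / 2) B₂ C (T + C) K (res q₀ a₀ LA) q a := by
    rw [hK]
    exact shC_res (hs2 N (by omega)) hqd hq0 (by linarith) a hu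
  have hq' : (q : ℝ) ≤ (N : ℝ) ^ (7 / 10 - (1 / 30 + ρ)) := by
    have e : (7 / 10 - (1 / 30 + ρ) : ℝ) = 2 / 3 - ρ := by ring
    rw [e]
    exact hq
  exact hC4 N (by omega) (res q₀ a₀ LA) (FF z r) hBdF (bd_FF hPar (by linarith)) hMin hMaj hAp hNc q hq' a hgcd
    hSh y₁ y₂ hy₁ hy₂

theorem errQ_all : ErrQStm :=
  err_Q
    (core4 Pool.Agent.Y697.GJ.liftC Pool.Agent.Y708.GJ.lift Pool.Agent.Y697.GJ.parsC Pool.Agent.Y872.GJ.pars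
      Pool.Agent.Y297.GJ.orth Pool.Agent.Y812.GJ.nonU)
    (Pool.Agent.R461.GS.shl Pool.Agent.Y235.GJ.vau Pool.Agent.Y662.GJ.jac Pool.Agent.Y812.GJ.l2)
    Pool.Agent.Y812.GJ.l2 (bilMaj3 Pool.Agent.Y812.GJ.l2 (countK Pool.Agent.Y812.GJ.l2))
    Pool.Agent.Y909.GJ.bilMin (tiMaj2 Pool.Agent.Y812.GJ.l2) Pool.Agent.Y412.GJ.tiMin
    Pool.Agent.Y812.GJ.lsh_le Pool.Agent.Y883.GJ.model_all

end Pool.Agent.R460.GQ
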