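import Pool.Agent.R460.GQ.Near
import Pool.Agent.R460.GP.Fin

set_option autoImplicit false

/-! Prime pairs in progressions: the number of the exceptional differences in a residue class. -/

namespace Pool.Agent.R460.GQ

open Finset
open Pool.Agent.R460.GS
open Pool.Agent.R460.GH
open Pool.Agent.R460.GP (cvd gcd_neg_val)
open Pool.Agent.H373R2.T7 (lamz Vz pz lamI lamzI)
open Pool.Agent.Y883.T3 (lsh)
open Pool.Agent.Y883.GJ
open Pool.Agent.Y614.GJ.Core (ev_log card_above gcd_above)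

/-- one class modulo `Q` -/
lemma one_class {N X Q q₀ a₀ Tg s z r : ℕ} [NeZero Q] (hX : X ≤ N) (c : ZMod Q) (H : Finset ℕ) {R t : ℝ}
    (hH : ∀ h ∈ H, h ≤ X ∧ (h : ZMod Q) = c)
    (hms : ∀ y : ℕ, y ≤ N → ∑ n ∈ (Icc (-(N : ℤ)) N).filter (fun n : ℤ => (n : ZMod Q) = -c),
      ‖cvd (res q₀ a₀ LA) (FF z r) y N n‖ ^ 2 ≤ R)
    (hbig : ∀ h ∈ H, ∃ i ∈ range (Tg + 1),
      t ≤ ‖cvd (res q₀ a₀ LA) (FF z r) (min (i * s) X) N (-(h : ℤ))‖) (ht : 0 < t) :
    (H.card : ℝ) ≤ (Tg + 1) * R / t ^ 2 := by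
  rw [le_div_iff₀ (by positivity)]
  obtain ⟨V, hV⟩ : ∃ V : ℕ → ℤ → ℝ, V = fun i n => ‖cvd (res q₀ a₀ LA) (FF z r) (min (i * s) X) N n‖ ^ 2 :=
    ⟨_, rfl⟩
  have hV0 : ∀ i n, 0 ≤ V i n := fun i n => by rw [hV]; positivity
  have h1 : ∀ h ∈ H, t ^ 2 ≤ ∑ i ∈ range (Tg + 1), V i (-(h : ℤ)) := by
    intro h hh
    obtain ⟨i, hi, h2⟩ := hbig h hh
    have h3 : V i (-(h : ℤ)) ≤ ∑ i ∈ range (Tg + 1), V i (-(h : ℤ)) :=
      single_le_sum (f := fun i => V i (-(h : ℤ))) (fun i _ => hV0 i _) hi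
    refine le_trans ?_ h3
    rw [hV]
    exact pow_le_pow_left₀ ht.le h2 2
  have h2 : ∀ i, ∑ h ∈ H, V i (-(h : ℤ)) ≤ R := by
    intro i
    have e1 : ∑ h ∈ H, V i (-(h : ℤ)) = ∑ n ∈ H.image (fun h : ℕ => -(h : ℤ)), V i n := by
      rw [sum_image]
      intro x _ y _ hxy
      simpa using hxy
    rw [e1]
    have h3 : ∑ n ∈ (Icc (-(N : ℤ)) N).filter (fun n : ℤ => (n : ZMod Q) = -c), V i n ≤ R := by
      rw [hV]
      exact hms (min (i * s) X) ((min_le_right _ _).trans hX)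
    refine le_trans ?_ h3
    refine sum_le_sum_of_subset_of_nonneg ?_ fun n _ _ => hV0 i n
    intro n hn
    rw [mem_image] at hn
    obtain ⟨h, hh, rfl⟩ := hn
    obtain ⟨k1, k2⟩ := hH h hh
    rw [mem_filter, mem_Icc]
    refine ⟨⟨by omega, by omega⟩, ?_⟩
    push_cast
    rw [k2]
  calc (H.card : ℝ) * t ^ 2 = ∑ _h ∈ H, t ^ 2 := by rw [sum_const, nsmul_eq_mul]
    _ ≤ ∑ h ∈ H, ∑ i ∈ range (Tg + 1), V i (-(h : ℤ)) := sum_le_sum h1
    _ = ∑ i ∈ range (Tg + 1), ∑ h ∈ H, V i (-(h : ℤ)) := sum_comm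
    _ ≤ ∑ _i ∈ range (Tg + 1), R := sum_le_sum fun i _ => h2 i
    _ = (Tg + 1) * R := by rw [sum_const, card_range, nsmul_eq_mul]; push_cast; ring

open Classical in
/-- the exceptional differences in a residue class -/
noncomputable def badH (B C X q b : ℕ) : Finset ℕ :=
  (Icc 1 X).filter (fun h => (h : ℝ) ≤ X / Real.log X ^ (C + 4) ∧ 2 ∣ h ∧ h % q = b % q ∧ ¬ Good1 B C X h)

theorem gq_main (hErr : ErrQStm) (ρ : ℝ) (hρ : 0 < ρ) (hρ1 : ρ ≤ 1 / 3) (A B C T : ℕ) :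
    ∃ X₀ : ℕ, ∀ X : ℕ, X₀ ≤ X → ∀ q : ℕ, 1 ≤ q → (q : ℝ) ≤ (X : ℝ) ^ (2 / 3 - ρ) → ∀ b : ℕ,
      (Nat.gcd b q : ℝ) ≤ Real.log X ^ T → ((badH B C X q b).card : ℝ) ≤ (X : ℝ) / (q * Real.log X ^ A) := by
  classical
  obtain ⟨A', hA'⟩ : ∃ A', A' = A + 3 * C + 2 * B + 12 := ⟨_, rfl⟩
  obtain ⟨B', hB'⟩ := hErr A' (T + B) B (C + 6) (ρ / 2) (by linarith)
  obtain ⟨E1, hE1⟩ : ∃ E1, E1 = max (B' + 1) (C + 7 + B) := ⟨_, rfl⟩
  obtain ⟨N₁, h1⟩ := hB' (E1 + 1)
  obtain ⟨X₂, h2⟩ := det_one B C E1 (by rw [hE1]; exact le_max_right _ _)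
  obtain ⟨X₃, h3⟩ := Filter.eventually_atTop.1 (ev_log B (s := ρ / 2) (by linarith) (2 ^ B' + 100))
  refine ⟨N₁ + X₂ + X₃ + 3, fun X hX q hq1 hqX b hb => ?_⟩
  have hX1 : 1 ≤ X := by omega
  have hX0 : (0 : ℝ) < X := by exact_mod_cast hX1
  have hX1r : (1 : ℝ) ≤ X := by exact_mod_cast hX1
  obtain ⟨hLb, hLp⟩ := h3 X (by omega)
  have c2 := h2 X (by omega)
  obtain ⟨N, hN⟩ : ∃ N, N = 2 * X := ⟨_, rfl⟩
  have hXN : X ≤ N := by omega
  have hNr : (N : ℝ) = 2 * X := by rw [hN]; push_cast; ring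
  have c1 := h1 N (by omega)
  have hL2 : Real.log X ≤ Real.log N := Real.log_le_log hX0 (by exact_mod_cast hXN)
  have hL3 : Real.log N ≤ 2 * Real.log X := by
    rw [hNr, Real.log_mul (by norm_num) hX0.ne']
    have := Real.log_two_lt_d9
    have h5 : (0 : ℝ) < 2 ^ B' := by positivity
    linarith
  obtain ⟨L, hLd⟩ : ∃ L, L = Real.log (X : ℝ) := ⟨_, rfl⟩
  obtain ⟨L', hLd'⟩ : ∃ L', L' = Real.log (N : ℝ) := ⟨_, rfl⟩
  rw [← hLd] at hLb hLp c2 hb hL2 hL3 ⊢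
  rw [← hLd'] at c1 hL2 hL3
  have h2B : (0 : ℝ) < 2 ^ B' := by positivity
  have hL100 : 100 ≤ L := by linarith
  have hL0 : 0 < L := by linarith
  have hL1 : 1 ≤ L := by linarith
  have hL0' : 0 < L' := by linarith
  have hq0 : (0 : ℝ) < q := by exact_mod_cast hq1
  have : NeZero q := ⟨by omega⟩
  -- the parameter `z`
  obtain ⟨z, hz⟩ : ∃ z, z = ⌈L ^ E1⌉₊ := ⟨_, rfl⟩
  have hzlo : L ^ E1 ≤ z := by rw [hz]; exact Nat.le_ceil _
  have hL1B : 1 ≤ L ^ E1 := one_le_pow₀ hL1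
  have hzhi : (z : ℝ) ≤ L ^ (E1 + 1) := by
    have := Nat.ceil_lt_add_one (show 0 ≤ L ^ E1 by positivity)
    rw [← hz] at this
    calc (z : ℝ) ≤ L ^ E1 + 1 := this.le
      _ ≤ L ^ E1 + L ^ E1 := by linarith
      _ = 2 * L ^ E1 := by ring
      _ ≤ L * L ^ E1 := mul_le_mul_of_nonneg_right (by linarith) (by positivity)
      _ = L ^ (E1 + 1) := by ring
  have hzB : L' ^ B' ≤ z := by
    calc L' ^ B' ≤ (2 * L) ^ B' := pow_le_pow_left₀ hL0'.le hL3 _
      _ = 2 ^ B' * L ^ B' := mul_pow _ _ _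
      _ ≤ L * L ^ B' := mul_le_mul_of_nonneg_right (by linarith) (by positivity)
      _ = L ^ (B' + 1) := by ring
      _ ≤ L ^ E1 := pow_le_pow_right₀ hL1 (by rw [hE1]; exact le_max_left _ _)
      _ ≤ z := hzlo
  obtain ⟨r, hPar, hsum, hms⟩ := c1 z hzB (hzhi.trans (pow_le_pow_left₀ hL0.le hL2 _))
  -- the grid
  obtain ⟨Tg, hTg⟩ : ∃ Tg, Tg = ⌈L ^ (C + 4)⌉₊ := ⟨_, rfl⟩
  have hT1 : L ^ (C + 4) ≤ Tg := by rw [hTg]; exact Nat.le_ceil _
  have hLV : 1 ≤ L ^ (C + 4) := one_le_pow₀ hL1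
  have hT2 : (Tg : ℝ) + 1 ≤ L ^ (C + 5) := by
    have h4 : (Tg : ℝ) < L ^ (C + 4) + 1 := by
      rw [hTg]
      exact Nat.ceil_lt_add_one (by positivity)
    calc (Tg : ℝ) + 1 ≤ 3 * L ^ (C + 4) := by linarith
      _ ≤ L * L ^ (C + 4) := mul_le_mul_of_nonneg_right (by linarith) (by positivity)
      _ = L ^ (C + 5) := by ring
  obtain ⟨s, hs⟩ : ∃ s, s = X / Tg + 1 := ⟨_, rfl⟩
  obtain ⟨t, ht⟩ : ∃ t : ℝ, t = X / (2 * L ^ (C + 3)) := ⟨_, rfl⟩
  have ht0 : 0 < t := by rw [ht]; positivity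
  -- the error from the truncated model
  have htr : L' * ∑ c ∈ Icc 1 N, |lamz z c - lsh z r c| ≤ t := by
    calc L' * ∑ c ∈ Icc 1 N, |lamz z c - lsh z r c| ≤ L' * (N / L' ^ (C + 6)) :=
          mul_le_mul_of_nonneg_left hsum hL0'.le
      _ = N / L' ^ (C + 5) := by rw [pow_succ L' (C + 5)]; field_simp
      _ ≤ N / L ^ (C + 5) := by
          apply div_le_div_of_nonneg_left (by positivity) (by positivity)
          exact pow_le_pow_left₀ hL0.le hL2 _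
      _ ≤ t := by
          rw [ht, hNr, div_le_div_iff₀ (by positivity) (by positivity)]
          have e : L ^ (C + 5) = L ^ (C + 3) * L ^ 2 := by ring
          rw [e]
          have h5 : (4 : ℝ) ≤ L ^ 2 := by nlinarith
          have h6 : 0 ≤ (X : ℝ) * L ^ (C + 3) := by positivity
          calc 2 * (X : ℝ) * (2 * L ^ (C + 3)) = (X * L ^ (C + 3)) * 4 := by ring
            _ ≤ (X * L ^ (C + 3)) * L ^ 2 := mul_le_mul_of_nonneg_left h5 h6
            _ = _ := by ring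
  -- one modulus and one class
  obtain ⟨W, hW⟩ : ∃ W : ℝ, W = 32 * X * L ^ (3 * C + 11) / (q * L ^ A') := ⟨_, rfl⟩
  have hW0 : 0 ≤ W := by rw [hW]; positivity
  have key : ∀ q₀ a₀ : ℕ, 1 ≤ q₀ → (q₀ : ℝ) ≤ L ^ B → a₀ < q₀ →
      (((badH B C X q b).filter (fun h => ¬ Good2 C X h q₀ a₀)).card : ℝ) ≤ W := by
    intro q₀ a₀ hq01 hq0B ha₀
    have : NeZero q₀ := ⟨by omega⟩
    have hQ : NeZero (q₀ * q) := ⟨Nat.mul_ne_zero (by omega) (by omega)⟩
    obtain ⟨H, hH⟩ : ∃ H, H = (badH B C X q b).filter (fun h => ¬ Good2 C X h q₀ a₀) := ⟨_, rfl⟩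
    rw [← hH]
    have hq0r : (0 : ℝ) < q₀ := by exact_mod_cast hq01
    have hmem : ∀ h ∈ H, 1 ≤ h ∧ h ≤ X ∧ (h : ℝ) ≤ X / L ^ (C + 4) ∧ 2 ∣ h ∧ h % q = b % q ∧
        Nat.Coprime a₀ q₀ ∧ Nat.Coprime (a₀ + h) q₀ ∧ ¬ Good2 C X h q₀ a₀ := by
      intro h hh
      rw [hH, mem_filter] at hh
      have h4 := hh.1
      unfold badH at h4
      rw [mem_filter, mem_Icc, ← hLd] at h4
      have h5 := hh.2
      have h6 : Nat.Coprime a₀ q₀ ∧ Nat.Coprime (a₀ + h) q₀ := by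
        by_contra hc
        apply h5
        intro k1 k2
        exact absurd ⟨k1, k2⟩ hc
      exact ⟨h4.1.1, h4.1.2, h4.2.1, h4.2.2.1, h4.2.2.2.1, h6.1, h6.2, h5⟩
    have hbig : ∀ h ∈ H, ∃ i ∈ range (Tg + 1),
        t ≤ ‖cvd (res q₀ a₀ LA) (FF z r) (min (i * s) X) N (-(h : ℤ))‖ := by
      intro h hh
      obtain ⟨m1, m2, m3, m4, m5, m6, m7, m8⟩ := hmem h hh
      by_contra hcon
      push Not at hcon
      apply m8
      intro _ _ x hx2 hxX
      rw [← hLd]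
      refine c2 h m3 z hzlo hzhi Tg hT1 (by linarith) q₀ a₀ hq01 hq0B m6 m7 m4 (by omega) ha₀ ?_ x hx2 hxX
      intro i hi
      have k1 := near (N := N) (h := h) (y := min (i * (X / Tg + 1)) X) z r q₀ a₀
        (by have := min_le_right (i * (X / Tg + 1)) X; omega)
      rw [← hLd'] at k1
      have k2 := hcon i hi
      rw [hs] at k2
      have k3 : (X : ℝ) / L ^ (C + 3) = 2 * t := by rw [ht]; field_simp
      rw [k3]
      linarith
    -- the classes modulo `q₀ q`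
    obtain ⟨S, hS⟩ : ∃ S, S = univ.filter (fun c : ZMod (q₀ * q) => ((c.val : ℕ) : ZMod q) = (b : ZMod q)) :=
      ⟨_, rfl⟩
    have hSc : (S.card : ℝ) ≤ q₀ := by
      rw [hS]
      exact_mod_cast card_above q₀ q (b : ZMod q)
    have hmap : ∀ h ∈ H, (h : ZMod (q₀ * q)) ∈ S := by
      intro h hh
      obtain ⟨m1, m2, m3, m4, m5, m6, m7, m8⟩ := hmem h hh
      rw [hS, mem_filter]
      refine ⟨mem_univ _, ?_⟩
      rw [ZMod.val_natCast, ZMod.natCast_eq_natCast_iff']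
      rw [Nat.mod_mod_of_dvd _ (dvd_mul_left q q₀)]
      exact m5
    have hcard : H.card = ∑ c ∈ S, (H.filter (fun h : ℕ => (h : ZMod (q₀ * q)) = c)).card :=
      card_eq_sum_card_fiberwise hmap
    have hcl : ∀ c ∈ S, ((H.filter (fun h : ℕ => (h : ZMod (q₀ * q)) = c)).card : ℝ) ≤ W / q₀ := by
      intro c hc
      rcases (H.filter (fun h : ℕ => (h : ZMod (q₀ * q)) = c)).eq_empty_or_nonempty with he | ⟨h₀, hh₀⟩
      · rw [he, card_empty, Nat.cast_zero]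
        positivity
      rw [mem_filter] at hh₀
      obtain ⟨m1, m2, m3, m4, m5, m6, m7, m8⟩ := hmem h₀ hh₀.1
      have hu : IsUnit (ZMod.castHom (dvd_mul_right q₀ q) (ZMod q₀) (-c) - (a₀ : ZMod q₀)) := by
        rw [map_neg, ← hh₀.2, map_natCast]
        have e : -((h₀ : ℕ) : ZMod q₀) - (a₀ : ZMod q₀) = -(((a₀ + h₀ : ℕ) : ZMod q₀)) := by
          push_cast
          ring
        rw [e]
        exact ((ZMod.isUnit_iff_coprime _ _).2 m7).neg
      have hg : (Nat.gcd (-c).val (q₀ * q) : ℝ) ≤ L' ^ (T + B) := by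
        rw [gcd_neg_val]
        rw [hS, mem_filter] at hc
        have g1 := gcd_above (k := q₀) (q := q) hc.2
        rw [ZMod.val_natCast, ← Nat.gcd_rec, Nat.gcd_comm q b] at g1
        have g2 : ((Nat.gcd c.val (q₀ * q) : ℕ) : ℝ) ≤ (q₀ : ℝ) * (Nat.gcd b q : ℝ) := by
          exact_mod_cast g1
        calc ((Nat.gcd c.val (q₀ * q) : ℕ) : ℝ) ≤ (q₀ : ℝ) * (Nat.gcd b q : ℝ) := g2
          _ ≤ L ^ B * L ^ T := by gcongr
          _ = L ^ (T + B) := by ring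
          _ ≤ L' ^ (T + B) := pow_le_pow_left₀ hL0.le hL2 _
      have hqN : (((q₀ * q : ℕ) : ℕ) : ℝ) ≤ (N : ℝ) ^ (2 / 3 - ρ / 2) := by
        rw [Nat.cast_mul]
        calc (q₀ : ℝ) * q ≤ (X : ℝ) ^ (ρ / 2) * (X : ℝ) ^ (2 / 3 - ρ) := by
              gcongr
              exact hq0B.trans hLp
          _ = (X : ℝ) ^ (2 / 3 - ρ / 2) := by
              rw [← Real.rpow_add hX0]
              congr 1
              ring
          _ ≤ (N : ℝ) ^ (2 / 3 - ρ / 2) := by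
              apply Real.rpow_le_rpow hX0.le _ (by linarith)
              exact_mod_cast hXN
      have hms' := hms (q₀ * q) q₀ (dvd_mul_right q₀ q) hqN (hq0B.trans (pow_le_pow_left₀ hL0.le hL2 _)) a₀ (-c)
        hu hg
      have hone := one_class (N := N) (X := X) (Q := q₀ * q) (q₀ := q₀) (a₀ := a₀) (Tg := Tg) (s := s) (z := z)
        (r := r) hXN c (H.filter (fun h : ℕ => (h : ZMod (q₀ * q)) = c))
        (R := (N : ℝ) ^ 3 / (((q₀ * q : ℕ) : ℝ) * L' ^ A')) (t := t)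
        (by
          intro h hh
          rw [mem_filter] at hh
          exact ⟨(hmem h hh.1).2.1, hh.2⟩)
        (fun y hy => hms' y N hy le_rfl)
        (fun h hh => hbig h (mem_filter.1 hh).1) ht0
      refine hone.trans ?_
      have e1 : (N : ℝ) ^ 3 / (((q₀ * q : ℕ) : ℝ) * L' ^ A') ≤ 8 * X ^ 3 / (q₀ * q * L ^ A') := by
        rw [hNr, Nat.cast_mul]
        have : (2 * (X : ℝ)) ^ 3 = 8 * X ^ 3 := by ring
        rw [this]
        apply div_le_div_of_nonneg_left (by positivity) (by positivity)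
        apply mul_le_mul_of_nonneg_left _ (by positivity)
        exact pow_le_pow_left₀ hL0.le hL2 _
      calc ((Tg : ℝ) + 1) * ((N : ℝ) ^ 3 / (((q₀ * q : ℕ) : ℝ) * L' ^ A')) / t ^ 2
          ≤ L ^ (C + 5) * (8 * X ^ 3 / (q₀ * q * L ^ A')) / t ^ 2 := by gcongr
        _ = W / q₀ := by
            have e3 : L ^ (C + 5) = L ^ (C + 3) * L ^ 2 := by ring
            have e4 : L ^ (3 * C + 11) = (L ^ (C + 3)) ^ 3 * L ^ 2 := by
              rw [← pow_mul, ← pow_add]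
              congr 1
              ring
            have hP0 : L ^ (C + 3) ≠ 0 := by positivity
            have hA0 : L ^ A' ≠ 0 := by positivity
            rw [hW, ht, e3, e4]
            clear hms c1 c2 h1 h2 hB' hbig hone hms'
            generalize L ^ (C + 3) = P at hP0 ⊢
            generalize L ^ A' = P' at hA0 ⊢
            field_simp
            try ring
    calc (H.card : ℝ) = ∑ c ∈ S, ((H.filter (fun h : ℕ => (h : ZMod (q₀ * q)) = c)).card : ℝ) := by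
          rw [hcard]
          push_cast
          rfl
      _ ≤ ∑ _c ∈ S, W / q₀ := sum_le_sum hcl
      _ = S.card * (W / q₀) := by rw [sum_const, nsmul_eq_mul]
      _ ≤ q₀ * (W / q₀) := by gcongr
      _ = W := by field_simp
  -- all moduli and classes
  obtain ⟨M, hM⟩ : ∃ M, M = ⌊L ^ B⌋₊ := ⟨_, rfl⟩
  have hMr : (M : ℝ) ≤ L ^ B := by rw [hM]; exact Nat.floor_le (by positivity)
  have hsub : badH B C X q b ⊆ (Icc 1 M ×ˢ range M).biUnion
      (fun p => (badH B C X q b).filter (fun h => p.2 < p.1 ∧ ¬ Good2 C X h p.1 p.2)) := by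
    intro h hh
    have h4 := hh
    unfold badH at h4
    rw [mem_filter, ← hLd] at h4
    have h5 := h4.2.2.2.2
    have h6 : ∃ q₀ a₀ : ℕ, 1 ≤ q₀ ∧ (q₀ : ℝ) ≤ L ^ B ∧ a₀ < q₀ ∧ ¬ Good2 C X h q₀ a₀ := by
      by_contra hc
      push Not at hc
      apply h5
      apply good1_of
      rw [← hLd]
      exact fun q₀ a₀ k1 k2 k3 => hc q₀ a₀ k1 k2 k3
    obtain ⟨q₀, a₀, k1, k2, k3, k4⟩ := h6
    rw [mem_biUnion]
    have k5 : q₀ ≤ M := by rw [hM]; exact Nat.le_floor k2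
    refine ⟨(q₀, a₀), ?_, ?_⟩
    · rw [mem_product, mem_Icc, mem_range]
      exact ⟨⟨k1, k5⟩, by omega⟩
    · rw [mem_filter]
      exact ⟨hh, k3, k4⟩
  have htot : ((badH B C X q b).card : ℝ) ≤ L ^ B * L ^ B * W := by
    calc ((badH B C X q b).card : ℝ) ≤ (((Icc 1 M ×ˢ range M).biUnion
          (fun p => (badH B C X q b).filter (fun h => p.2 < p.1 ∧ ¬ Good2 C X h p.1 p.2))).card : ℝ) := by
          exact_mod_cast card_le_card hsub
      _ ≤ ∑ p ∈ Icc 1 M ×ˢ range M, (((badH B C X q b).filter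
          (fun h => p.2 < p.1 ∧ ¬ Good2 C X h p.1 p.2)).card : ℝ) := by
          exact_mod_cast card_biUnion_le
      _ ≤ ∑ _p ∈ Icc 1 M ×ˢ range M, W := by
          refine sum_le_sum fun p hp => ?_
          rw [mem_product, mem_Icc] at hp
          by_cases hlt : p.2 < p.1
          · refine le_trans ?_ (key p.1 p.2 hp.1.1 (le_trans (by exact_mod_cast hp.1.2) hMr) hlt)
            exact_mod_cast card_le_card (by
              intro h hh
              rw [mem_filter] at hh ⊢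
              exact ⟨hh.1, hh.2.2⟩)
          · have : (badH B C X q b).filter (fun h => p.2 < p.1 ∧ ¬ Good2 C X h p.1 p.2) = ∅ := by
              rw [filter_eq_empty_iff]
              intro h _ hc
              exact hlt hc.1
            rw [this, card_empty, Nat.cast_zero]
            exact hW0
      _ = (M : ℝ) * M * W := by
          rw [sum_const, card_product, Nat.card_Icc, card_range, nsmul_eq_mul, Nat.add_sub_cancel]
          push_cast
          ring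
      _ ≤ L ^ B * L ^ B * W := by gcongr
  refine htot.trans ?_
  rw [hW, hA']
  have e2 : L ^ B * L ^ B * (32 * X * L ^ (3 * C + 11) / (q * L ^ (A + 3 * C + 2 * B + 12))) =
      X / (q * L ^ A) * (32 / L) := by
    have e3 : L ^ (A + 3 * C + 2 * B + 12) = L ^ A * L ^ (3 * C + 11) * L ^ B * L ^ B * L := by ring
    rw [e3]
    have hA0 : L ^ A ≠ 0 := by positivity
    have hB0 : L ^ B ≠ 0 := by positivity
    have hC0 : L ^ (3 * C + 11) ≠ 0 := by positivity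
    generalize L ^ A = P1 at hA0 ⊢
    generalize L ^ B = P2 at hB0 ⊢
    generalize L ^ (3 * C + 11) = P3 at hC0 ⊢
    field_simp
  rw [e2]
  have h7 : 32 / L ≤ 1 := by
    rw [div_le_one hL0]
    linarith
  calc (X : ℝ) / (q * L ^ A) * (32 / L) ≤ X / (q * L ^ A) * 1 := by gcongr
    _ = _ := mul_one _

end Pool.Agent.R460.GQ
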