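import Pool.Agent.R460.GQ.Err
import Pool.Agent.R460.GQ.Det
import Pool.Agent.R460.GP.Low

set_option autoImplicit false

/-! The sums over a class in terms of the correlations. -/

namespace Pool.Agent.R460.GQ

open Finset
open Pool.Agent.R460.GS
open Pool.Agent.R460.GP (cvd cvd_neg real_sumC shift_le)
open Pool.Agent.H373R2.T7 (lamz Vz pz lamI lamzI)
open Pool.Agent.Y883.T3 (lsh)
open Pool.Agent.Y883.GJ

/-- the von Mangoldt function on a residue class -/
noncomputable def lq (q₀ a₀ n : ℕ) : ℝ := if n ≡ a₀ [MOD q₀] then ArithmeticFunction.vonMangoldt n else 0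

lemma lq_nn (q₀ a₀ n : ℕ) : 0 ≤ lq q₀ a₀ n := by
  unfold lq
  split_ifs
  · exact ArithmeticFunction.vonMangoldt_nonneg
  · exact le_rfl

lemma lq_le (q₀ a₀ : ℕ) {N n : ℕ} (hn : n ∈ Icc 1 N) : lq q₀ a₀ n ≤ Real.log N := by
  unfold lq
  split_ifs
  · exact vm_le hn
  · exact Real.log_natCast_nonneg _

lemma near {N h y : ℕ} (z r q₀ a₀ : ℕ) (hy : y + h ≤ N) :
    |∑ n ∈ Icc 1 y, (if n ≡ a₀ [MOD q₀] then ArithmeticFunction.vonMangoldt n else 0) *
      (lamI ((n : ℤ) + (h : ℤ)) - lamzI z ((n : ℤ) + (h : ℤ)))| ≤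
      ‖cvd (res q₀ a₀ LA) (FF z r) y N (-(h : ℤ))‖ + Real.log N * ∑ c ∈ Icc 1 N, |lamz z c - lsh z r c| := by
  have h1 : ∀ n ∈ Icc 1 y, (if n ≡ a₀ [MOD q₀] then ArithmeticFunction.vonMangoldt n else 0) *
      (lamI ((n : ℤ) + (h : ℤ)) - lamzI z ((n : ℤ) + (h : ℤ))) =
      lq q₀ a₀ n * (ArithmeticFunction.vonMangoldt (n + h) - lsh z r (n + h)) +
      lq q₀ a₀ n * (lsh z r (n + h) - lamz z (n + h)) := by
    intro n hn
    rw [mem_Icc] at hn
    have e1 : ((n : ℤ) + (h : ℤ)) = ((n + h : ℕ) : ℤ) := by push_cast; ring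
    have e2 : (1 : ℤ) ≤ ((n + h : ℕ) : ℤ) := by push_cast; omega
    rw [e1]
    unfold lamI lamzI lq
    rw [if_pos e2, if_pos e2, Int.toNat_natCast]
    ring
  rw [sum_congr rfl h1, sum_add_distrib]
  refine (abs_add_le _ _).trans (add_le_add ?_ ?_)
  · rw [cvd_neg hy, real_sumC (Icc 1 y) (lq q₀ a₀)
      (fun n => ArithmeticFunction.vonMangoldt (n + h) - lsh z r (n + h)) (res q₀ a₀ LA)
      (fun n => FF z r (n + h)) ?_ ?_]
    · intro b
      unfold res lq LA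
      split_ifs
      · rfl
      · simp
    · intro b
      unfold FF
      rfl
  · refine (abs_sum_le_sum_abs _ _).trans ?_
    have h2 : ∀ n ∈ Icc 1 y, |lq q₀ a₀ n * (lsh z r (n + h) - lamz z (n + h))| ≤
        Real.log N * |lamz z (n + h) - lsh z r (n + h)| := by
      intro n hn
      rw [abs_mul, abs_of_nonneg (lq_nn _ _ _), abs_sub_comm (lsh z r (n + h))]
      apply mul_le_mul_of_nonneg_right _ (abs_nonneg _)
      rw [mem_Icc] at hn
      exact lq_le q₀ a₀ (mem_Icc.2 ⟨hn.1, by omega⟩)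
    refine (sum_le_sum h2).trans ?_
    rw [← mul_sum]
    apply mul_le_mul_of_nonneg_left _ (Real.log_natCast_nonneg _)
    have h3 := shift_le (fun c => |lamz z c - lsh z r c|) (fun _ => abs_nonneg _) (N := N) (n := h)
      (y₁ := 0) (y₂ := y) hy
    have e : Icc 1 y = Ioc 0 y := by
      ext n
      rw [mem_Icc, mem_Ioc]
      omega
    rw [e]
    exact h3

/-- the property of the difference `h` -/
def Good1 (B C X h : ℕ) : Prop :=
  ∀ q a : ℕ, 1 ≤ q → (q : ℝ) ≤ Real.log X ^ B → Nat.Coprime a q → Nat.Coprime (a + h) q →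
    ∀ x : ℝ, 2 ≤ x → x ≤ X →
    |(Pool.Agent.W93.PP.pc h x a q : ℝ) -
      Pool.Agent.H560R3.GB.sing h / Pool.Agent.W93.PP.Cnt q h * Pool.Agent.W93.PP.Li2 x| ≤ X / Real.log X ^ C

/-- the same for one modulus and one class -/
def Good2 (C X h q a : ℕ) : Prop :=
  Nat.Coprime a q → Nat.Coprime (a + h) q → ∀ x : ℝ, 2 ≤ x → x ≤ X →
    |(Pool.Agent.W93.PP.pc h x a q : ℝ) -
      Pool.Agent.H560R3.GB.sing h / Pool.Agent.W93.PP.Cnt q h * Pool.Agent.W93.PP.Li2 x| ≤ X / Real.log X ^ C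

lemma good1_of (B C X h : ℕ) (hh : ∀ q a : ℕ, 1 ≤ q → (q : ℝ) ≤ Real.log X ^ B → a < q → Good2 C X h q a) :
    Good1 B C X h := by
  intro q a hq1 hq2 ha hah x hx2 hxX
  have hmod : a % q ≡ a [MOD q] := Nat.mod_modEq _ _
  have ha1 : Nat.Coprime (a % q) q := by
    have := hmod.gcd_eq
    unfold Nat.Coprime at ha ⊢
    rw [this, ha]
  have hah1 : Nat.Coprime (a % q + h) q := by
    have := (hmod.add_right h).gcd_eq
    unfold Nat.Coprime at hah ⊢
    rw [this, hah]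
  have h1 := hh q (a % q) hq1 hq2 (Nat.mod_lt _ hq1) ha1 hah1 x hx2 hxX
  have hpc : Pool.Agent.W93.PP.pc h x a q = Pool.Agent.W93.PP.pc h x (a % q) q := by
    unfold Pool.Agent.W93.PP.pc
    congr 1
    apply filter_congr
    intro p _
    constructor
    · rintro ⟨c1, c2, c3, c4⟩; exact ⟨c1, c2, c3, c4.trans hmod.symm⟩
    · rintro ⟨c1, c2, c3, c4⟩; exact ⟨c1, c2, c3, c4.trans hmod⟩
  rw [hpc]
  exact h1

end Pool.Agent.R460.GQ
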