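import Pool.Agent.R460.GQ.Conv

set_option autoImplicit false

/-! The prime pairs `p, p + d` with `p ≤ y`, without the condition `p + d ≤ y`. -/

namespace Pool.Agent.R460.GQ

open Finset
open Pool.Agent.H560R3.GB (C₂)

/-- the number of the primes `p ≤ y` with `p + d` prime -/
noncomputable def piP (d : ℕ) (y : ℝ) : ℕ :=
  ((range (⌊y⌋₊ + 1)).filter (fun p => p.Prime ∧ (p + d).Prime)).card

/-- the constant of the pair `0, d` -/
noncomputable def cP (d : ℕ) : ℝ :=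
  2 * C₂ * ∏ p ∈ d.primeFactors.filter (fun p => 2 < p), ((p : ℝ) - 1) / ((p : ℝ) - 2)

/-- the asymptotic formula for all `y ≤ x` -/
def HoldsP (C : ℕ) (x : ℝ) (d : ℕ) : Prop :=
  ∀ y : ℝ, 2 ≤ y → y ≤ x → |(piP d y : ℝ) - cP d * ∫ t in (2 : ℝ)..y, 1 / Real.log t ^ 2| ≤ x / Real.log x ^ C

lemma pairs_le (d : ℕ) (y : ℝ) : pairs d y 1 1 ≤ piP d y := by
  classical
  unfold pairs piP
  apply card_le_card
  intro p hp
  rw [mem_filter] at hp ⊢
  exact ⟨hp.1, hp.2.1, hp.2.2.1⟩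

lemma le_pairs (d : ℕ) (y : ℝ) (hy : 0 ≤ y) : piP d y ≤ pairs d y 1 1 + (d + 1) := by
  classical
  unfold pairs piP
  have hsub : (range (⌊y⌋₊ + 1)).filter (fun p => p.Prime ∧ (p + d).Prime) ⊆
      (range (⌊y⌋₊ + 1)).filter (fun p => p.Prime ∧ (p + d).Prime ∧ (p : ℝ) + d ≤ y ∧ p ≡ 1 [MOD 1]) ∪
      Icc (⌊y⌋₊ - d) ⌊y⌋₊ := by
    intro p hp
    rw [mem_filter, mem_range] at hp
    rw [mem_union, mem_filter, mem_range, mem_Icc]
    by_cases h : p + d ≤ ⌊y⌋₊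
    · left
      refine ⟨hp.1, hp.2.1, hp.2.2, ?_, Nat.modEq_one⟩
      have h1 : ((p + d : ℕ) : ℝ) ≤ y := (Nat.le_floor_iff hy).1 h
      push_cast at h1
      exact h1
    · right
      omega
  refine (card_le_card hsub).trans ((card_union_le _ _).trans ?_)
  apply Nat.add_le_add_left
  rw [Nat.card_Icc]
  omega

lemma main_eq (d : ℕ) (y : ℝ) : main d y 1 = cP d * ∫ t in (2 : ℝ)..y, 1 / Real.log t ^ 2 := by
  unfold main cP
  have h1 : ((range 1).filter (fun α => Nat.Coprime α 1 ∧ Nat.Coprime (α + d) 1)).card = 1 := by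
    rw [filter_true_of_mem]
    · rfl
    · intro α _
      exact ⟨Nat.coprime_one_right _, Nat.coprime_one_right _⟩
  rw [h1]
  push_cast
  ring

lemma holdsP_of {C : ℕ} {x : ℝ} {d : ℕ} (hL : 3 ≤ Real.log x) (hx : 0 < x) (hd1 : 0 < d)
    (hd : (d : ℝ) ≤ x / Real.log x ^ (C + 1 + 6)) (h : Holds 0 (C + 1) x d) : HoldsP C x d := by
  intro y hy hyx
  have h1 := h 1 1 le_rfl (by rw [pow_zero]; norm_num) (Nat.coprime_one_right _) (Nat.coprime_one_right _) y hy hyx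
  rw [main_eq] at h1
  have h2 : (pairs d y 1 1 : ℝ) ≤ piP d y := by exact_mod_cast pairs_le d y
  have h3 : (piP d y : ℝ) ≤ pairs d y 1 1 + (d + 1) := by exact_mod_cast le_pairs d y (by linarith)
  obtain ⟨L, hLd⟩ : ∃ L, L = Real.log x := ⟨_, rfl⟩
  rw [← hLd] at hL hd h1 ⊢
  have hL0 : 0 < L := by linarith
  have hL1 : 1 ≤ L := by linarith
  have hdr : (1 : ℝ) ≤ d := by exact_mod_cast hd1
  have h4 : x / L ^ (C + 1 + 6) ≤ x / L ^ (C + 1) :=
    div_le_div_of_nonneg_left hx.le (by positivity) (pow_le_pow_right₀ hL1 (by omega))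
  have h4' : x / L ^ (C + 1 + 6) * L ≤ x / L ^ (C + 1) := by
    have e : x / L ^ (C + 1 + 6) * L = x / L ^ (C + 1 + 5) := by
      rw [pow_succ L (C + 1 + 5)]
      field_simp
    rw [e]
    exact div_le_div_of_nonneg_left hx.le (by positivity) (pow_le_pow_right₀ hL1 (by omega))
  have h5 : x / L ^ C = x / L ^ (C + 1) * L := by
    rw [pow_succ]
    field_simp
  have h6 : 0 ≤ x / L ^ (C + 1) := by positivity
  have h7 : (d : ℝ) + 1 ≤ x / L ^ (C + 1) := by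
    have h8 : (d : ℝ) + 1 ≤ d * L := by nlinarith
    have h9 : (d : ℝ) * L ≤ x / L ^ (C + 1 + 6) * L := mul_le_mul_of_nonneg_right hd hL0.le
    linarith
  rw [h5]
  have h10 := abs_le.1 h1
  rw [abs_le]
  constructor <;> nlinarith

/-- The even differences `0 < d ≤ x / (log x) ^ (C + 7)` with `d ≡ b (mod m)` for which `HoldsP` fails. -/
def excP (C : ℕ) (x : ℝ) (m : ℕ) (b : ℤ) : Set ℕ :=
  {d : ℕ | 0 < d ∧ (d : ℝ) ≤ x / Real.log x ^ (C + 7) ∧ Even d ∧ (d : ℤ) ≡ b [ZMOD m] ∧ ¬ HoldsP C x d}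

theorem tup_real (ρ : ℝ) (hρ : 0 < ρ) (A C T : ℕ) :
    ∃ x₀ : ℝ, ∀ x : ℝ, x₀ ≤ x → ∀ m : ℕ, 1 ≤ m → (m : ℝ) ≤ x ^ (2 / 3 - ρ) → ∀ b : ℤ,
      (Int.gcd b m : ℝ) ≤ Real.log x ^ T →
        (excP C x m b).Finite ∧ ((excP C x m b).ncard : ℝ) ≤ x / (m * Real.log x ^ A) := by
  obtain ⟨x₀, h0⟩ := gq_real ρ hρ A 0 (C + 1) T
  refine ⟨max x₀ (Real.exp 3), fun x hx m hm hmx b hb => ?_⟩
  obtain ⟨h1, h2⟩ := h0 x ((le_max_left _ _).trans hx) m hm hmx b hb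
  have hx3 : Real.exp 3 ≤ x := (le_max_right _ _).trans hx
  have hx0 : 0 < x := (Real.exp_pos 3).trans_le hx3
  have hL : 3 ≤ Real.log x := by
    rw [Real.le_log_iff_exp_le hx0]
    exact hx3
  have hsub : excP C x m b ⊆ exceptional 0 (C + 1) x m b := by
    rintro d ⟨k1, k2, k3, k4, k5⟩
    refine ⟨k1, ?_, k3, k4, fun hh => k5 (holdsP_of hL hx0 k1 ?_ hh)⟩
    · rw [show C + 1 + 6 = C + 7 by omega]
      exact k2
    · rw [show C + 1 + 6 = C + 7 by omega]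
      exact k2
  refine ⟨h1.subset hsub, le_trans ?_ h2⟩
  exact_mod_cast Set.ncard_le_ncard hsub h1

end Pool.Agent.R460.GQ
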