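import Pool.Agent.R460.GQ.Cz
import Pool.Agent.TH894.PV6

set_option autoImplicit false

/-! The variance of the primes in the classes of one modulus, for the moduli in a residue class. -/

namespace Pool.Agent.R460.GQ

open Finset
open Pool.Agent.TH894.PV (G det_var)
open Pool.Agent.TH894.PA (cz)
open Pool.Agent.Y614.GJ.Core (ev_log)

lemma cz_eq (z N₁ y : ℕ) : cz z N₁ y = czl z N₁ y := rfl

open Classical in
/-- the bad moduli in a residue class -/
noncomputable def badV (κ : ℕ) (ε : ℝ) (Y m b : ℕ) : Finset ℕ :=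
  (Icc 1 Y).filter (fun Q => Q % m = b % m ∧ (Y : ℝ) ≤ Q * Real.log Y ^ κ ∧
    ∃ x : ℝ, (Q : ℝ) ≤ x ∧ x ≤ Q * Real.log Y ^ κ ∧ ε * (x * Real.log Q) < |G x Q - x * Real.log Q|)

theorem var_main (hErr : ErrQStm) (ρ ε : ℝ) (hρ : 0 < ρ) (hρ1 : ρ ≤ 1 / 3) (hε : 0 < ε) (hε1 : ε ≤ 1) (A κ T : ℕ) :
    ∃ Y₀ : ℕ, ∀ Y : ℕ, Y₀ ≤ Y → ∀ m : ℕ, 1 ≤ m → (m : ℝ) ≤ (Y : ℝ) ^ (2 / 3 - ρ) → ∀ b : ℕ,
      (Nat.gcd b m : ℝ) ≤ Real.log Y ^ T → ((badV κ ε Y m b).card : ℝ) ≤ (Y : ℝ) / (m * Real.log Y ^ A) := by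
  classical
  obtain ⟨E, X₀, h0⟩ := cz_main hErr ρ hρ (A + 2 * κ + 1) (3 * κ + 1) (T + κ + 1) (κ + 2)
  obtain ⟨Y₁, h1⟩ := det_var κ ε hε hε1 (E + 1)
  obtain ⟨Y₂, h2⟩ := Filter.eventually_atTop.1 (ev_log (κ + 1) (s := 1) (by norm_num) (2 ^ E + 400))
  refine ⟨X₀ + Y₁ + Y₂ + 3, fun Y hY m hm1 hmY b hb => ?_⟩
  have hY1 : 1 ≤ Y := by omega
  have hY0 : (0 : ℝ) < Y := by exact_mod_cast hY1
  have hY1r : (1 : ℝ) ≤ Y := by exact_mod_cast hY1
  obtain ⟨hLb, hLp⟩ := h2 Y (by omega)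
  rw [Real.rpow_one] at hLp
  obtain ⟨L, hLd⟩ : ∃ L, L = Real.log (Y : ℝ) := ⟨_, rfl⟩
  have h2E : (0 : ℝ) < 2 ^ E := by positivity
  rw [← hLd] at hLb hLp hb
  have hL400 : 400 ≤ L := by linarith
  have hL0 : 0 < L := by linarith
  have hL1 : 1 ≤ L := by linarith
  have hLκ1 : 1 ≤ L ^ κ := one_le_pow₀ hL1
  obtain ⟨H, hH⟩ : ∃ H, H = ⌈L ^ κ⌉₊ := ⟨_, rfl⟩
  have hH1 : L ^ κ ≤ H := by rw [hH]; exact Nat.le_ceil _
  have hH2 : (H : ℝ) ≤ 2 * L ^ κ := by
    have h4 : (H : ℝ) < L ^ κ + 1 := by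
      rw [hH]
      exact Nat.ceil_lt_add_one (by positivity)
    linarith
  have hHn : 1 ≤ H := by
    have : (1 : ℝ) ≤ H := hLκ1.trans hH1
    exact_mod_cast this
  have hHY : (H : ℝ) ≤ Y := by
    calc (H : ℝ) ≤ 2 * L ^ κ := hH2
      _ ≤ L * L ^ κ := mul_le_mul_of_nonneg_right (by linarith) (by positivity)
      _ = L ^ (κ + 1) := by ring
      _ ≤ Y := hLp
  obtain ⟨X, hX⟩ : ∃ X, X = H * Y := ⟨_, rfl⟩
  have hYX : Y ≤ X := by rw [hX]; exact Nat.le_mul_of_pos_left _ hHn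
  have hXr : (X : ℝ) = H * Y := by rw [hX]; push_cast; ring
  have hX0 : (0 : ℝ) < X := by
    have : (Y : ℝ) ≤ X := by exact_mod_cast hYX
    linarith
  have hXu : (X : ℝ) ≤ 2 * L ^ κ * Y := by rw [hXr]; exact mul_le_mul_of_nonneg_right hH2 hY0.le
  have hLX : L ≤ Real.log X := by rw [hLd]; exact Real.log_le_log hY0 (by exact_mod_cast hYX)
  have hLX2 : Real.log X ≤ 2 * L := by
    have h4 : Real.log X ≤ Real.log (Y * Y) := by
      apply Real.log_le_log hX0
      rw [hXr]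
      exact mul_le_mul_of_nonneg_right hHY hY0.le
    rw [Real.log_mul hY0.ne' hY0.ne', ← hLd] at h4
    linarith
  have hLX0 : 0 < Real.log X := by linarith
  have c1 := h0 X (by omega)
  obtain ⟨z, hz1, hz2, c2⟩ := c1
  have c3 := h1 Y (by omega) z (by
      rw [← hLd]
      exact (pow_le_pow_left₀ hL0.le hLX _).trans hz1) (by
      rw [← hLd]
      calc (z : ℝ) ≤ Real.log X ^ E := hz2
        _ ≤ (2 * L) ^ E := pow_le_pow_left₀ hLX0.le hLX2 _
        _ = 2 ^ E * L ^ E := mul_pow _ _ _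
        _ ≤ L * L ^ E := mul_le_mul_of_nonneg_right (by linarith) (by positivity)
        _ = L ^ (E + 1) := by ring)
  rw [← hLd] at c3
  have hm0 : (0 : ℝ) < m := by exact_mod_cast hm1
  -- the thresholds
  have hthr : (X : ℝ) / Real.log X ^ (3 * κ + 1) ≤ Y / L ^ (2 * κ) := by
    rw [div_le_div_iff₀ (by positivity) (by positivity)]
    calc (X : ℝ) * L ^ (2 * κ) ≤ 2 * L ^ κ * Y * L ^ (2 * κ) := mul_le_mul_of_nonneg_right hXu (by positivity)
      _ = 2 * (Y * L ^ (3 * κ)) := by ring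
      _ ≤ L * (Y * L ^ (3 * κ)) := mul_le_mul_of_nonneg_right (by linarith) (by positivity)
      _ = Y * L ^ (3 * κ + 1) := by ring
      _ ≤ Y * Real.log X ^ (3 * κ + 1) := by
          apply mul_le_mul_of_nonneg_left _ hY0.le
          exact pow_le_pow_left₀ hL0.le hLX _
  -- every bad modulus has a bad multiple
  have hbad : ∀ Q ∈ badV κ ε Y m b, ∃ h ∈ Icc 1 H, h * Q ∈ badC (3 * κ + 1) X m (h * b) z := by
    intro Q hQ
    unfold badV at hQ
    rw [mem_filter, mem_Icc, ← hLd] at hQ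
    obtain ⟨⟨q1, q2⟩, q3, q4, x, q5, q6, q7⟩ := hQ
    by_contra hcon
    push Not at hcon
    have h5 := c3 Q q2 q4 x q5 q6 (by
      intro h hh1 hh2 N₁ hN₁
      rw [cz_eq]
      have hhH : h ≤ H := by
        have : (h : ℝ) ≤ H := hh2.trans hH1
        exact_mod_cast this
      have h6 := hcon h (mem_Icc.2 ⟨hh1, hhH⟩)
      unfold badC at h6
      rw [mem_filter, mem_Icc] at h6
      push Not at h6
      have hN₁X : N₁ ≤ X := by
        have : (N₁ : ℝ) ≤ X := by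
          refine hN₁.trans ?_
          rw [hXr, mul_comm]
          exact mul_le_mul_of_nonneg_right hH1 hY0.le
        exact_mod_cast this
      have h7 := h6 ⟨Nat.one_le_iff_ne_zero.2 (Nat.mul_ne_zero (by omega) (by omega)), by
        rw [hX]; exact Nat.mul_le_mul hhH q2⟩ (by
        rw [Nat.mul_mod, q3, ← Nat.mul_mod]) N₁ hN₁X
      exact h7.trans hthr)
    linarith
  have hsub : badV κ ε Y m b ⊆ (Icc 1 H).biUnion
      (fun h => (badV κ ε Y m b).filter (fun Q => h * Q ∈ badC (3 * κ + 1) X m (h * b) z)) := by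
    intro Q hQ
    obtain ⟨h, hh, h5⟩ := hbad Q hQ
    rw [mem_biUnion]
    exact ⟨h, hh, mem_filter.2 ⟨hQ, h5⟩⟩
  obtain ⟨W, hW⟩ : ∃ W : ℝ, W = X / (m * L ^ (A + 2 * κ + 1)) := ⟨_, rfl⟩
  have hone : ∀ h ∈ Icc 1 H, (((badV κ ε Y m b).filter
      (fun Q => h * Q ∈ badC (3 * κ + 1) X m (h * b) z)).card : ℝ) ≤ W := by
    intro h hh
    rw [mem_Icc] at hh
    have h5 : ((badV κ ε Y m b).filter (fun Q => h * Q ∈ badC (3 * κ + 1) X m (h * b) z)).card ≤
        (badC (3 * κ + 1) X m (h * b) z).card := by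
      apply card_le_card_of_injOn (fun Q => h * Q)
      · intro Q hQ
        rw [mem_coe, mem_filter] at hQ
        exact hQ.2
      · intro Q _ Q' _ he
        exact Nat.eq_of_mul_eq_mul_left (by omega) he
    have hhr : (h : ℝ) ≤ H := by exact_mod_cast hh.2
    have h6 := c2 m hm1 (hmY.trans (by
      apply Real.rpow_le_rpow hY0.le _ (by linarith)
      exact_mod_cast hYX)) (h * b) (by
      have h7 : Nat.gcd (h * b) m ≤ h * Nat.gcd b m := by
        have h8 : Nat.gcd (h * b) m ∣ Nat.gcd h m * Nat.gcd b m := Nat.gcd_mul_left_dvd_mul_gcd m h b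
        have h9 : Nat.gcd h m * Nat.gcd b m ≤ h * Nat.gcd b m :=
          Nat.mul_le_mul_right _ (Nat.gcd_le_left _ (by omega))
        refine le_trans (Nat.le_of_dvd ?_ h8) h9
        exact Nat.mul_pos (Nat.gcd_pos_of_pos_right _ (by omega)) (Nat.gcd_pos_of_pos_right _ (by omega))
      calc ((Nat.gcd (h * b) m : ℕ) : ℝ) ≤ (h : ℝ) * (Nat.gcd b m : ℝ) := by exact_mod_cast h7
        _ ≤ (2 * L ^ κ) * L ^ T := by
            apply mul_le_mul (hhr.trans hH2) hb (Nat.cast_nonneg _) (by positivity)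
        _ ≤ (L * L ^ κ) * L ^ T := by
            apply mul_le_mul_of_nonneg_right _ (by positivity)
            exact mul_le_mul_of_nonneg_right (by linarith) (by positivity)
        _ = L ^ (T + κ + 1) := by ring
        _ ≤ Real.log X ^ (T + κ + 1) := pow_le_pow_left₀ hL0.le hLX _)
    calc (((badV κ ε Y m b).filter (fun Q => h * Q ∈ badC (3 * κ + 1) X m (h * b) z)).card : ℝ)
        ≤ ((badC (3 * κ + 1) X m (h * b) z).card : ℝ) := by exact_mod_cast h5
      _ ≤ (X : ℝ) / (m * Real.log X ^ (A + 2 * κ + 1)) := h6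
      _ ≤ W := by
          rw [hW]
          apply div_le_div_of_nonneg_left hX0.le (by positivity)
          apply mul_le_mul_of_nonneg_left _ hm0.le
          exact pow_le_pow_left₀ hL0.le hLX _
  have htot : ((badV κ ε Y m b).card : ℝ) ≤ H * W := by
    calc ((badV κ ε Y m b).card : ℝ) ≤ (((Icc 1 H).biUnion
          (fun h => (badV κ ε Y m b).filter (fun Q => h * Q ∈ badC (3 * κ + 1) X m (h * b) z))).card : ℝ) := by
          exact_mod_cast card_le_card hsub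
      _ ≤ ∑ h ∈ Icc 1 H, (((badV κ ε Y m b).filter
          (fun Q => h * Q ∈ badC (3 * κ + 1) X m (h * b) z)).card : ℝ) := by
          exact_mod_cast card_biUnion_le
      _ ≤ ∑ _h ∈ Icc 1 H, W := sum_le_sum hone
      _ = H * W := by rw [sum_const, Nat.card_Icc, nsmul_eq_mul, Nat.add_sub_cancel]
  refine htot.trans ?_
  have hW2 : W ≤ 2 * L ^ κ * Y / (m * L ^ (A + 2 * κ + 1)) := by
    rw [hW]
    exact div_le_div_of_nonneg_right hXu (by positivity)
  calc (H : ℝ) * W ≤ (2 * L ^ κ) * (2 * L ^ κ * Y / (m * L ^ (A + 2 * κ + 1))) :=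
        mul_le_mul hH2 hW2 (by rw [hW]; positivity) (by positivity)
    _ = Y / (m * L ^ A) * (4 / L) := by
        have e3 : L ^ (A + 2 * κ + 1) = L ^ A * (L ^ κ) ^ 2 * L := by
          rw [← pow_mul, ← pow_add, ← pow_succ]
          congr 1
          ring
        have hP0 : L ^ κ ≠ 0 := by positivity
        have hA0 : L ^ A ≠ 0 := by positivity
        rw [e3]
        clear c2 c3 h0 h1 h2 hone htot hW2 hbad hsub
        generalize L ^ κ = P at hP0 ⊢
        generalize L ^ A = P' at hA0 ⊢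
        field_simp
        try ring
    _ ≤ Y / (m * L ^ A) * 1 := by
        apply mul_le_mul_of_nonneg_left _ (by positivity)
        rw [div_le_one (by positivity)]
        linarith
    _ = _ := by rw [mul_one, hLd]

end Pool.Agent.R460.GQ
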